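import Pool.Agent.Y386.IR.Stm2

/-!
# IR-RES2 (job 11257, helper907, adapted from helper96's IR-RES): fractional chromatic number of
`K_{a/b}[G]`, lower bound
-/

set_option autoImplicit false

namespace Pool.Agent.Y907.IR

open Pool.Agent.H692R2 Finset Pool.Agent.Y386.IR

section

variable {V : Type} [Fintype V] (G : SimpleGraph V) (a b : ℕ) (x : V → ℕ)

open Classical in
/-- the trace of a set of vertices in copy `i` -/
noncomputable def rr (i : Fin a) (I : Finset (Σ p : Fin a × V, Fin (x p.2))) :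
    Finset (Σ v : V, Fin (x v)) :=
  Finset.univ.filter fun t => (⟨(i, t.1), t.2⟩ : Σ p : Fin a × V, Fin (x p.2)) ∈ I

theorem mem_rr (i : Fin a) (I : Finset (Σ p : Fin a × V, Fin (x p.2))) (t : Σ v : V, Fin (x v)) :
    t ∈ rr a x i I ↔ (⟨(i, t.1), t.2⟩ : Σ p : Fin a × V, Fin (x p.2)) ∈ I := by
  unfold rr
  simp

theorem rr_indep (i : Fin a) (I : Finset (Σ p : Fin a × V, Fin (x p.2)))
    (h : (replicated (lexK a b G) fun p => x p.2).IsIndepSet (I : Set _)) :
    (replicated G x).IsIndepSet (rr a x i I : Set (Σ v : V, Fin (x v))) := by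
  intro s hs t ht hst hadj
  rw [Finset.mem_coe, mem_rr] at hs ht
  have hne : (⟨(i, s.1), s.2⟩ : Σ p : Fin a × V, Fin (x p.2)) ≠ ⟨(i, t.1), t.2⟩ := by
    intro h'
    apply hst
    obtain ⟨s1, s2⟩ := s
    obtain ⟨t1, t2⟩ := t
    simp only [Sigma.mk.injEq, Prod.mk.injEq, true_and] at h'
    obtain ⟨h1, h2⟩ := h'
    subst h1
    rw [eq_of_heq h2]
  refine h hs ht hne ?_
  rcases hadj with ⟨h1, _⟩ | h1
  · exact Or.inl ⟨congrArg (fun v => (i, v)) h1, hne⟩
  · exact Or.inr (Or.inl ⟨rfl, h1⟩)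

open Classical in
theorem count (hint : S_INT) (hb : 0 < b) (hab : 2 * b < a)
    (I : Finset (Σ p : Fin a × V, Fin (x p.2)))
    (h : (replicated (lexK a b G) fun p => x p.2).IsIndepSet (I : Set _)) :
    (Finset.univ.filter fun i : Fin a => (rr a x i I).Nonempty).card ≤ b := by
  have h1 := (hint a b ((Finset.univ.filter fun i : Fin a => (rr a x i I).Nonempty).image
    Fin.val) hb hab ?_ ?_).1
  · rwa [Finset.card_image_of_injective _ Fin.val_injective] at h1
  · intro y hy
    obtain ⟨i, _, rfl⟩ := Finset.mem_image.1 hy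
    exact i.2
  · intro y hy z hz hca
    obtain ⟨i, hi, rfl⟩ := Finset.mem_image.1 hy
    obtain ⟨j, hj, rfl⟩ := Finset.mem_image.1 hz
    rw [Finset.mem_filter] at hi hj
    obtain ⟨s, hs⟩ := hi.2
    obtain ⟨t, ht⟩ := hj.2
    rw [mem_rr] at hs ht
    have hij : i ≠ j := by
      rintro rfl
      rcases hca with ⟨h1, _⟩ | ⟨h1, _⟩
      · omega
      · omega
    have hne : (⟨(i, s.1), s.2⟩ : Σ p : Fin a × V, Fin (x p.2)) ≠ ⟨(j, t.1), t.2⟩ := by
      intro h'
      exact hij (congrArg (fun q : Σ p : Fin a × V, Fin (x p.2) => q.1.1) h')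
    exact h hs ht hne (Or.inr (Or.inr ⟨hij, hca⟩))

end

open Classical in
theorem t_RES2 : S_WFAM → S_INT → S_RES2 := by
  intro hW hint V _ G a b x s hb hab ⟨w, hw0, hwI, hwc, hws⟩
  have h1 : ∀ i : Fin a, fracChi (replicated G x) ≤
      ∑ I : Finset (Σ p : Fin a × V, Fin (x p.2)), if (rr a x i I).Nonempty then w I else 0 := by
    intro i
    refine hW _ (Finset (Σ p : Fin a × V, Fin (x p.2))) (replicated G x)
      (fun I => if (rr a x i I).Nonempty then w I else 0) (fun I => rr a x i I) ?_ ?_ ?_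
    · intro I
      show 0 ≤ if (rr a x i I).Nonempty then w I else 0
      split_ifs
      · exact hw0 I
      · exact le_rfl
    · intro I hI
      have hI' : (if (rr a x i I).Nonempty then w I else 0) ≠ 0 := hI
      split_ifs at hI' with h2
      · exact rr_indep G a b x i I (hwI I hI')
      · exact absurd rfl hI'
    · intro t
      refine (hwc ⟨(i, t.1), t.2⟩).trans (le_of_eq ?_)
      refine Finset.sum_congr ?_ ?_
      · ext I
        simp only [Finset.mem_filter, Finset.mem_univ, true_and, mem_rr]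
      · intro I hI
        simp only [Finset.mem_filter, Finset.mem_univ, true_and] at hI
        exact (if_pos ⟨t, hI⟩).symm
  have h2 : ∑ i : Fin a, fracChi (replicated G x) ≤ ∑ i : Fin a,
      ∑ I : Finset (Σ p : Fin a × V, Fin (x p.2)), if (rr a x i I).Nonempty then w I else 0 :=
    Finset.sum_le_sum fun i _ => h1 i
  rw [Finset.sum_comm] at h2
  have h3 : ∑ I : Finset (Σ p : Fin a × V, Fin (x p.2)), ∑ i : Fin a,
      (if (rr a x i I).Nonempty then w I else 0) ≤
      ∑ I : Finset (Σ p : Fin a × V, Fin (x p.2)), (b : ℝ) * w I := by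
    refine Finset.sum_le_sum fun I _ => ?_
    rw [← Finset.sum_filter, Finset.sum_const, nsmul_eq_mul]
    by_cases hI : w I = 0
    · rw [hI]
      simp
    · refine mul_le_mul_of_nonneg_right ?_ (hw0 I)
      exact_mod_cast count G a b x hint hb hab I (hwI I hI)
  rw [← Finset.mul_sum, hws] at h3
  rw [Finset.sum_const, Finset.card_univ, Fintype.card_fin, nsmul_eq_mul] at h2
  have h4 := h2.trans h3
  have hb' : (0 : ℝ) < b := by exact_mod_cast hb
  rw [div_mul_eq_mul_div, div_le_iff₀ hb']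
  linarith

end Pool.Agent.Y907.IR
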